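import Mathlib
import Pool.Agent.Helper25_TD.Star

/-!
# Continuous operations are computable relative to a fixed real
-/

set_option autoImplicit false

namespace Pool.Agent.Helper55AX

open Pool.Agent.Helper25TD Set

/-- the real that codes a map between finite strings -/
noncomputable def cg (g : List Bool → List Bool) : ℕ → Bool := by
  classical
  exact fun m => decide (∃ s : List Bool, m = Nat.pair (Encodable.encode s) (Encodable.encode (g s)))

theorem cg_true {g : List Bool → List Bool} {m : ℕ} : cg g m = true ↔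
    ∃ s : List Bool, m = Nat.pair (Encodable.encode s) (Encodable.encode (g s)) := by
  classical
  simp [cg]

theorem cg_spec {g g' : List Bool → List Bool} {s : List Bool}
    (h : cg g' (Nat.pair (Encodable.encode s) (Encodable.encode (g s))) =
      cg g (Nat.pair (Encodable.encode s) (Encodable.encode (g s)))) : g' s = g s := by
  have h1 : cg g (Nat.pair (Encodable.encode s) (Encodable.encode (g s))) = true :=
    cg_true.2 ⟨s, rfl⟩
  rw [h1, cg_true] at h
  obtain ⟨s', h⟩ := h
  rw [Nat.pair_eq_pair] at h
  obtain ⟨h2, h3⟩ := h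
  have h4 := Encodable.encode_injective h2
  subst h4
  exact (Encodable.encode_injective h3).symm

/-- Every continuous operation (on a family of pairs of a real and a map between strings) is
computable relative to a fixed real. -/
theorem op {ι : Type*} (x : ι → (ℕ → Bool)) (g : ι → (List Bool → List Bool))
    (o : ι → (ℕ → Bool))
    (H : ∀ i l, ∃ (n : ℕ) (S : Finset (List Bool)), ∀ j, (∀ k < n, x j k = x i k) →
      (∀ s ∈ S, g j s = g i s) → o j l = o i l) :
    ∃ Z : ℕ → Bool, ∀ i J, TLE (x i) J → TLE (cg (g i)) J → TLE Z J → TLE (o i) J := by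
  classical
  let X : ι → (ℕ → Bool) := fun i => join (x i) (cg (g i))
  let P : ℕ → ℕ → Bool → Prop := fun w l b => ∀ i n, code (X i) n = w → o i l = b
  let z1 : ℕ → Bool := fun m => decide (∃ b, P (Nat.unpair m).1 (Nat.unpair m).2 b)
  let z2 : ℕ → Bool := fun m => decide (P (Nat.unpair m).1 (Nat.unpair m).2 true)
  refine ⟨join z1 z2, fun i J hx hg hZ => ?_⟩
  have hX : TLE (X i) J := TLE.join hx hg
  refine TLE.of_table hX ((TLE.join_left z1 z2).trans hZ) ((TLE.join_right z1 z2).trans hZ)
    (fun l => ?_) (fun l n h => ?_)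
  · obtain ⟨n, S, hS⟩ := H i l
    let p : List Bool → ℕ := fun s => Nat.pair (Encodable.encode s) (Encodable.encode (g i s))
    refine ⟨2 * n + ∑ s ∈ S, (2 * p s + 2), ?_⟩
    change decide _ = true
    rw [decide_eq_true_eq, Nat.unpair_pair]
    refine ⟨o i l, fun j m h => ?_⟩
    obtain ⟨rfl, h3⟩ := code_inj h
    refine hS j (fun k hk => ?_) (fun s hs => cg_spec ?_)
    · have h4 := h3 (2 * k) (by omega)
      simpa [X, join] using h4
    · have h5 : 2 * p s + 2 ≤ ∑ s ∈ S, (2 * p s + 2) :=
        Finset.single_le_sum (f := fun s => 2 * p s + 2) (fun _ _ => Nat.zero_le _) hs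
      have h4 := h3 (2 * p s + 1) (by omega)
      have h6 : (2 * p s + 1) / 2 = p s := by omega
      have h7 : (2 * p s + 1) % 2 ≠ 0 := by omega
      simpa only [X, join, h6, h7, if_false] using h4
  · simp only [z1, Nat.unpair_pair, decide_eq_true_eq] at h
    simp only [z2, Nat.unpair_pair]
    obtain ⟨b, hb⟩ := h
    have hb' := hb i n rfl
    cases hb2 : o i l with
    | true =>
      rw [hb'] at hb2
      subst hb2
      exact decide_eq_true hb
    | false =>
      refine decide_eq_false fun h => ?_
      have := h i n rfl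
      rw [hb2] at this
      exact absurd this (by simp)

/-- The version for operations whose values are maps between strings. -/
theorem op_tree {ι : Type*} (x : ι → (ℕ → Bool)) (g : ι → (List Bool → List Bool))
    (o : ι → (List Bool → List Bool))
    (H : ∀ i s, ∃ (n : ℕ) (S : Finset (List Bool)), ∀ j, (∀ k < n, x j k = x i k) →
      (∀ s ∈ S, g j s = g i s) → o j s = o i s) :
    ∃ Z : ℕ → Bool, ∀ i J, TLE (x i) J → TLE (cg (g i)) J → TLE Z J → TLE (cg (o i)) J := by
  classical
  refine op x g (fun i => cg (o i)) fun i l => ?_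
  by_cases h : ∃ s : List Bool, Encodable.encode s = (Nat.unpair l).1
  · obtain ⟨s, hs⟩ := h
    obtain ⟨n, S, hS⟩ := H i s
    refine ⟨n, S, fun j h1 h2 => ?_⟩
    have h3 := hS j h1 h2
    have h4 : ∀ k, cg (o k) l = true ↔ Encodable.encode (o k s) = (Nat.unpair l).2 := by
      intro k
      rw [cg_true]
      constructor
      · rintro ⟨s', hs'⟩
        have h5 : (Nat.unpair l).1 = Encodable.encode s' := by rw [hs', Nat.unpair_pair]
        rw [h5] at hs
        have h6 := Encodable.encode_injective hs
        subst h6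
        rw [hs', Nat.unpair_pair]
      · intro h5
        refine ⟨s, ?_⟩
        rw [h5, hs, Nat.pair_unpair]
    have h5 : cg (o j) l = true ↔ cg (o i) l = true := by rw [h4, h4, h3]
    exact Bool.eq_iff_iff.2 h5
  · refine ⟨0, ∅, fun j _ _ => ?_⟩
    have h4 : ∀ k, cg (o k) l = false := by
      intro k
      rw [← Bool.not_eq_true, cg_true]
      rintro ⟨s, hs⟩
      refine h ⟨s, ?_⟩
      rw [hs, Nat.unpair_pair]
    rw [h4, h4]

/-- Countably many reals have an upper bound. -/
theorem exists_bound {ι : Type*} [Countable ι] (z : ι → (ℕ → Bool)) :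
    ∃ Z : ℕ → Bool, ∀ i, TLE (z i) Z := by
  rcases isEmpty_or_nonempty ι with h | h
  · exact ⟨fun _ => false, fun i => (h.false i).elim⟩
  obtain ⟨e, he⟩ := exists_surjective_nat ι
  refine ⟨jn fun n => z (e n), fun i => ?_⟩
  obtain ⟨n, rfl⟩ := he i
  have h1 := TLE.row (jn fun n => z (e n)) n
  rwa [row_jn] at h1

theorem countable_cone (x : ℕ → Bool) : {y : ℕ → Bool | TLE y x}.Countable := by
  have h1 : {y : ℕ → Bool | TLE y x} ⊆ ⋃ c : OCode, {y | ∀ l, x ∈ U c l (y l)} := by
    intro y hy
    obtain ⟨c, hc⟩ := exists_U hy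
    exact mem_iUnion.2 ⟨c, hc⟩
  refine (countable_iUnion fun c => ?_).mono h1
  refine Set.Subsingleton.countable ?_
  intro y hy y' hy'
  funext l
  have h2 := hy l
  have h3 := hy' l
  cases h4 : y l <;> cases h5 : y' l
  · rfl
  · rw [h4] at h2
    rw [h5] at h3
    exact absurd ⟨h3, h2⟩ (disjoint_U c l x)
  · rw [h4] at h2
    rw [h5] at h3
    exact absurd ⟨h2, h3⟩ (disjoint_U c l x)
  · rfl

end Pool.Agent.Helper55AX
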