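import Mathlib
import Pool.Agent.Helper55_AX.Op

/-!
# Maps between finite strings that define perfect trees
-/

set_option autoImplicit false

namespace Pool.Agent.Helper55AX

open Pool.Agent.Helper25TD Set

/-- `x` extends the finite string `s` -/
def Ext (s : List Bool) (x : ℕ → Bool) : Prop := ∀ i, i < s.length → s[i]? = some (x i)

theorem Ext.of_prefix {s t : List Bool} (h : s <+: t) {x : ℕ → Bool} (hx : Ext t x) : Ext s x := by
  obtain ⟨u, rfl⟩ := h
  intro i hi
  have h1 := hx i (by rw [List.length_append]; omega)
  rwa [List.getElem?_append_left hi] at h1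

theorem exists_ext (s : List Bool) : ∃ x, Ext s x := by
  refine ⟨fun i => s.getD i false, fun i hi => ?_⟩
  rw [List.getElem?_eq_getElem hi]
  simp [List.getD_eq_getElem?_getD, List.getElem?_eq_getElem hi]

theorem length_pre (x : ℕ → Bool) (n : ℕ) : (pre x n).length = n := by simp [pre]

theorem getElem?_pre (x : ℕ → Bool) {n i : ℕ} (h : i < n) : (pre x n)[i]? = some (x i) := by
  simp [pre, h]

theorem ext_pre (x : ℕ → Bool) (n : ℕ) : Ext (pre x n) x := fun i hi => by
  rw [length_pre] at hi
  exact getElem?_pre x hi

theorem Ext.eq_pre {s : List Bool} {x : ℕ → Bool} (h : Ext s x) : s = pre x s.length := by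
  apply List.ext_getElem?
  intro i
  rcases lt_or_ge i s.length with hi | hi
  · rw [h i hi, getElem?_pre x hi]
  · rw [List.getElem?_eq_none hi, List.getElem?_eq_none (by rw [length_pre]; exact hi)]

theorem pre_prefix (x : ℕ → Bool) {m n : ℕ} (h : m ≤ n) : pre x m <+: pre x n := by
  induction h with
  | refl => exact List.prefix_rfl
  | step _ ih =>
    rw [pre_succ]
    exact ih.trans (List.prefix_append _ _)

theorem pre_congr {x y : ℕ → Bool} {n : ℕ} (h : ∀ i < n, x i = y i) : pre x n = pre y n := by
  unfold pre
  refine List.map_congr_left fun i hi => h i (List.mem_range.1 hi)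

theorem Ext.congr {s : List Bool} {x y : ℕ → Bool} (h : Ext s x) (hxy : ∀ i < s.length, x i = y i) :
    Ext s y := fun i hi => by rw [h i hi, hxy i hi]

/-- two strings without common extension -/
theorem exists_diverge {u v : List Bool} (h : ∀ x, Ext u x → ¬ Ext v x) :
    ∃ r b, r ++ [b] <+: u ∧ r ++ [!b] <+: v := by
  induction u generalizing v with
  | nil =>
    obtain ⟨x, hx⟩ := exists_ext v
    exact absurd hx (h x fun i hi => absurd hi (Nat.not_lt_zero i))
  | cons a u ih =>
    cases v with
    | nil =>
      obtain ⟨x, hx⟩ := exists_ext (a :: u)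
      exact absurd (fun i hi => absurd hi (Nat.not_lt_zero i)) (h x hx)
    | cons b v =>
      by_cases hab : a = b
      · subst hab
        obtain ⟨r, c, h1, h2⟩ := ih (v := v) (by
          intro x hx hx'
          have key : ∀ w : List Bool, Ext w x → Ext (a :: w) fun i => if i = 0 then a else x (i - 1) := by
            intro w hw i hi
            cases i with
            | zero => simp
            | succ i =>
              have := hw i (by simpa using hi)
              simpa using this
          exact h _ (key u hx) (key v hx'))
        exact ⟨a :: r, c, by simpa using h1, by simpa using h2⟩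
      · refine ⟨[], a, by simp, ?_⟩
        have : (!a) = b := by cases a <;> cases b <;> simp_all
        simp [this]

/-- maps between strings that define perfect trees -/
structure IsTree (g : List Bool → List Bool) : Prop where
  mono : ∀ s t, g s <+: g (s ++ t)
  split : ∀ s x, Ext (g (s ++ [true])) x → ¬ Ext (g (s ++ [false])) x

theorem IsTree.split' {g : List Bool → List Bool} (hg : IsTree g) (s : List Bool) (b : Bool)
    {x : ℕ → Bool} (h : Ext (g (s ++ [b])) x) : ¬ Ext (g (s ++ [!b])) x := by
  cases b
  · intro h'
    exact hg.split s x h' h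
  · exact hg.split s x h

theorem IsTree.of_prefix {g : List Bool → List Bool} (hg : IsTree g) {s t : List Bool}
    (h : s <+: t) : g s <+: g t := by
  obtain ⟨u, rfl⟩ := h
  exact hg.mono s u

theorem IsTree.length_le {g : List Bool → List Bool} (hg : IsTree g) (s : List Bool) :
    s.length ≤ (g s).length := by
  induction s using List.reverseRecOn with
  | nil => exact Nat.zero_le _
  | append_singleton s b ih =>
    have h1 : g s <+: g (s ++ [b]) := hg.mono s [b]
    have h2 : (g s).length ≤ (g (s ++ [b])).length := h1.length_le
    have h3 : (g s).length ≠ (g (s ++ [b])).length := by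
      intro h
      have h4 : g s = g (s ++ [b]) := h1.eq_of_length h
      obtain ⟨x, hx⟩ := exists_ext (g (s ++ [!b]))
      have h5 : Ext (g s) x := hx.of_prefix (hg.mono s [!b])
      rw [h4] at h5
      exact hg.split' s b h5 hx
    rw [List.length_append, List.length_singleton]
    omega

/-- the branch of the tree given by `a` -/
def G (g : List Bool → List Bool) (a : ℕ → Bool) : ℕ → Bool :=
  fun n => (g (pre a (n + 1))).getD n false

theorem IsTree.ext_G {g : List Bool → List Bool} (hg : IsTree g) (a : ℕ → Bool) (n : ℕ) :
    Ext (g (pre a n)) (G g a) := by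
  intro i hi
  have h1 : i < (g (pre a (i + 1))).length := by
    have := hg.length_le (pre a (i + 1))
    rw [length_pre] at this
    omega
  have h2 : some (G g a i) = (g (pre a (i + 1)))[i]? := by
    simp [G, List.getD_eq_getElem?_getD, List.getElem?_eq_getElem h1]
  rw [h2]
  rcases le_total n (i + 1) with h | h
  · obtain ⟨u, hu⟩ := hg.of_prefix (pre_prefix a h)
    rw [← hu, List.getElem?_append_left hi]
  · obtain ⟨u, hu⟩ := hg.of_prefix (pre_prefix a h)
    rw [← hu, List.getElem?_append_left h1]

theorem IsTree.G_unique {g : List Bool → List Bool} (hg : IsTree g) {a x : ℕ → Bool}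
    (h : ∀ n, Ext (g (pre a n)) x) : G g a = x := by
  funext i
  have h1 : i < (g (pre a (i + 1))).length := by
    have := hg.length_le (pre a (i + 1))
    rw [length_pre] at this
    omega
  have h2 := h (i + 1) i h1
  have h3 := hg.ext_G a (i + 1) i h1
  rw [h2] at h3
  exact (Option.some.inj h3).symm

theorem IsTree.comp {g h : List Bool → List Bool} (hg : IsTree g) (hh : IsTree h) :
    IsTree fun s => g (h s) := by
  refine ⟨fun s t => hg.of_prefix (hh.mono s t), fun s x h1 h2 => ?_⟩
  obtain ⟨r, b, h3, h4⟩ := exists_diverge (hh.split s)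
  exact hg.split' r b (h1.of_prefix (hg.of_prefix h3)) (h2.of_prefix (hg.of_prefix h4))

theorem IsTree.G_comp {g h : List Bool → List Bool} (hg : IsTree g) (hh : IsTree h)
    (a : ℕ → Bool) : G (fun s => g (h s)) a = G g (G h a) := by
  refine (hg.comp hh).G_unique fun n => ?_
  rw [(hh.ext_G a n).eq_pre]
  exact hg.ext_G _ _

theorem G_congr {g g' : List Bool → List Bool} {a a' : ℕ → Bool} {n : ℕ}
    (h : ∀ i < n + 1, a' i = a i) (hg : g' (pre a (n + 1)) = g (pre a (n + 1))) :
    G g' a' n = G g a n := by
  unfold G
  rw [pre_congr h, hg]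

theorem continuous_G (g : List Bool → List Bool) : Continuous (G g) := by
  refine continuous_pi fun n => ?_
  have h1 : Continuous fun u : Fin (n + 1) → Bool =>
      G g (fun j => if h : j < n + 1 then u ⟨j, h⟩ else false) n :=
    continuous_of_discreteTopology
  have h2 : Continuous fun y : ℕ → Bool => (fun i : Fin (n + 1) => y i) :=
    continuous_pi fun i => continuous_apply (i : ℕ)
  refine (h1.comp h2).congr fun y => ?_
  refine G_congr (fun j hj => ?_) rfl
  simp only [Function.comp_apply, dif_pos hj]

/-- the first difference of two reals -/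
theorem exists_first_diff {a a' : ℕ → Bool} {l : ℕ} (h : a' l ≠ a l) :
    ∃ i ≤ l, a' i = !a i ∧ pre a' i = pre a i := by
  classical
  have hex : ∃ i, a' i ≠ a i := ⟨l, h⟩
  refine ⟨Nat.find hex, Nat.find_min' hex h, ?_, ?_⟩
  · have := Nat.find_spec hex
    cases h1 : a (Nat.find hex) <;> cases h2 : a' (Nat.find hex) <;> simp_all
  · refine pre_congr fun i hi => ?_
    have := Nat.find_min hex hi
    rwa [not_not] at this

/-! ### the finite tree of strings -/

theorem finite_length_le (n : ℕ) : {s : List Bool | s.length ≤ n}.Finite := by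
  have : {s : List Bool | s.length ≤ n} ⊆ ⋃ k ∈ Finset.range (n + 1), {s | s.length = k} := by
    intro s hs
    simp only [mem_iUnion]
    exact ⟨s.length, Finset.mem_range.2 (Nat.lt_succ_of_le hs), rfl⟩
  refine Set.Finite.subset ?_ this
  refine Set.Finite.biUnion (Finset.finite_toSet _) fun k _ => ?_
  exact List.finite_length_eq Bool k

/-- the strings of length at most `n` -/
noncomputable def strs (n : ℕ) : Finset (List Bool) := (finite_length_le n).toFinset

theorem mem_strs {n : ℕ} {s : List Bool} : s ∈ strs n ↔ s.length ≤ n := by
  simp [strs]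

/-! ### extending by a finite string -/

/-- the real with initial segment `σ`, followed by `a` -/
def cat (σ : List Bool) (a : ℕ → Bool) : ℕ → Bool :=
  fun n => if n < σ.length then σ.getD n false else a (n - σ.length)

theorem pre_cat (σ : List Bool) (a : ℕ → Bool) (n : ℕ) :
    pre (cat σ a) (σ.length + n) = σ ++ pre a n := by
  apply List.ext_getElem?
  intro i
  rcases lt_or_ge i (σ.length + n) with hi | hi
  · rw [getElem?_pre _ hi]
    rcases lt_or_ge i σ.length with h | h
    · rw [List.getElem?_append_left h]
      simp [cat, h, List.getD_eq_getElem?_getD]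
    · rw [List.getElem?_append_right h, getElem?_pre _ (by omega)]
      simp [cat, not_lt.2 h]
  · rw [List.getElem?_eq_none (by rw [length_pre]; exact hi),
      List.getElem?_eq_none (by rw [List.length_append, length_pre]; exact hi)]

theorem isTree_append (σ : List Bool) : IsTree fun s => σ ++ s := by
  refine ⟨fun s t => ⟨t, by simp⟩, fun s x h1 h2 => ?_⟩
  have h3 := h1 (σ ++ s).length (by simp)
  have h4 := h2 (σ ++ s).length (by simp)
  rw [← h3] at h4
  simp at h4

theorem G_append {g : List Bool → List Bool} (hg : IsTree g) (σ : List Bool) (a : ℕ → Bool) :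
    G (fun s => g (σ ++ s)) a = G g (cat σ a) := by
  rw [hg.G_comp (isTree_append σ)]
  congr 1
  refine (isTree_append σ).G_unique fun n => ?_
  change Ext (σ ++ pre a n) _
  rw [← pre_cat]
  exact ext_pre _ _

/-! ### coding a real -/

/-- the string obtained from `s` by inserting the bits of `z` -/
def zp (z : ℕ → Bool) (s : List Bool) : List Bool :=
  pre (join z fun i => s.getD i false) (2 * s.length)

theorem join_congr {z z' a a' : ℕ → Bool} {n : ℕ} (h : ∀ i < n, z i = z' i)
    (h' : ∀ i < n, a i = a' i) : ∀ i < 2 * n, join z a i = join z' a' i := by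
  intro i hi
  unfold join
  split_ifs
  · exact h _ (by omega)
  · exact h' _ (by omega)

theorem zp_pre (z a : ℕ → Bool) (n : ℕ) : zp z (pre a n) = pre (join z a) (2 * n) := by
  unfold zp
  rw [length_pre]
  refine pre_congr (join_congr (fun _ _ => rfl) fun i hi => ?_)
  simp [List.getD_eq_getElem?_getD, getElem?_pre a hi]

theorem zp_congr {z z' : ℕ → Bool} {s : List Bool} (h : ∀ i < s.length, z i = z' i) :
    zp z s = zp z' s := by
  unfold zp
  exact pre_congr (join_congr h fun _ _ => rfl)

theorem isTree_zp (z : ℕ → Bool) : IsTree (zp z) := by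
  refine ⟨fun s t => ?_, fun s x h1 h2 => ?_⟩
  · unfold zp
    have h1 : pre (join z fun i => s.getD i false) (2 * s.length) =
        pre (join z fun i => (s ++ t).getD i false) (2 * s.length) := by
      refine pre_congr (join_congr (fun _ _ => rfl) fun i hi => ?_)
      simp [List.getD_eq_getElem?_getD, List.getElem?_append_left hi]
    rw [h1]
    exact pre_prefix _ (by rw [List.length_append]; omega)
  · have h3 : ∀ b, Ext (zp z (s ++ [b])) x → x (2 * s.length + 1) = b := by
      intro b hb
      have h4 := hb (2 * s.length + 1) (by simp [zp, length_pre]; omega)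
      rw [zp, getElem?_pre _ (by simp; omega)] at h4
      have h5 := Option.some.inj h4
      rw [← h5]
      have h6 : (2 * s.length + 1) % 2 ≠ 0 := by omega
      have h7 : (2 * s.length + 1) / 2 = s.length := by omega
      simp [join, h7]
    have h4 := h3 true h1
    rw [h3 false h2] at h4
    exact absurd h4 (by simp)

theorem G_zp (z a : ℕ → Bool) : G (zp z) a = join z a := by
  refine (isTree_zp z).G_unique fun n => ?_
  rw [zp_pre]
  exact ext_pre _ _

end Pool.Agent.Helper55AX
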