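import Mathlib
import Pool.Agent.Helper55_AX.Tree

/-!
# Splitting subtrees; the closure properties of a sufficiently strong oracle
-/

set_option autoImplicit false

namespace Pool.Agent.Helper55AX

open Pool.Agent.Helper25TD Set

/-- the string `u` forces that the functional `c` has value `b` at `l` -/
def W (c : OCode) (u : List Bool) (l : ℕ) (b : Bool) : Prop := ∀ x, Ext u x → x ∈ U c l b

theorem W.mono {c : OCode} {u v : List Bool} {l : ℕ} {b : Bool} (h : W c u l b) (huv : u <+: v) :
    W c v l b := fun x hx => h x (hx.of_prefix huv)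

theorem W.false {c : OCode} {u : List Bool} {l : ℕ} {b : Bool} (h : W c u l b)
    (h' : W c u l (!b)) : False := by
  obtain ⟨x, hx⟩ := exists_ext u
  cases b
  · exact disjoint_U c l x ⟨h' x hx, h x hx⟩
  · exact disjoint_U c l x ⟨h x hx, h' x hx⟩

theorem U_unique {c : OCode} {l : ℕ} {x : ℕ → Bool} {b b' : Bool} (h : x ∈ U c l b)
    (h' : x ∈ U c l b') : b = b' := by
  cases b <;> cases b'
  · rfl
  · exact absurd ⟨h', h⟩ (disjoint_U c l x)
  · exact absurd ⟨h, h'⟩ (disjoint_U c l x)
  · rfl

theorem IsTree.exists_W {g : List Bool → List Bool} (hg : IsTree g) {a : ℕ → Bool} {c : OCode}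
    {l : ℕ} {b : Bool} (h : G g a ∈ U c l b) : ∃ n, W c (g (pre a n)) l b := by
  obtain ⟨N, hN⟩ := exists_cyl (isOpen_U c l b) h
  refine ⟨N, fun x hx => hN x fun j hj => ?_⟩
  have h1 := hg.length_le (pre a N)
  rw [length_pre] at h1
  have h2 := hx j (by omega)
  have h3 := hg.ext_G a N j (by omega)
  rw [h2] at h3
  exact Option.some.inj h3

/-- `p` splits the functional `c` above `r` -/
def SP (c : OCode) (g : List Bool → List Bool) (r : List Bool) (p : List Bool × List Bool) : Prop :=
  ∃ l b, W c (g (r ++ p.1)) l b ∧ W c (g (r ++ p.2)) l (!b)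

/-- the number `n` codes a splitting pair above `r` -/
def QS (c : OCode) (g : List Bool → List Bool) (r : List Bool) (n : ℕ) : Prop :=
  ∃ p : List Bool × List Bool, Encodable.decode n = some p ∧ SP c g r p

open Classical in
/-- the first splitting pair above `r` -/
noncomputable def sel (c : OCode) (g : List Bool → List Bool) (r : List Bool) :
    List Bool × List Bool :=
  if h : ∃ n, QS c g r n then (Encodable.decode (Nat.find h)).getD ([], []) else ([], [])

theorem exists_QS {c : OCode} {g : List Bool → List Bool} {r : List Bool}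
    (h : ∃ p, SP c g r p) : ∃ n, QS c g r n := by
  obtain ⟨p, hp⟩ := h
  exact ⟨Encodable.encode p, p, Encodable.encodek p, hp⟩

theorem sel_spec {c : OCode} {g : List Bool → List Bool} {r : List Bool}
    (h : ∃ p, SP c g r p) : SP c g r (sel c g r) := by
  classical
  have h1 := exists_QS h
  obtain ⟨p, hp, hp'⟩ := Nat.find_spec h1
  unfold sel
  rw [dif_pos h1, hp]
  exact hp'

theorem sel_congr {c : OCode} {g : List Bool → List Bool} {r : List Bool}
    (h : ∃ p, SP c g r p) : ∃ S : Finset (List Bool), ∀ g' : List Bool → List Bool,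
      (∀ u ∈ S, g' u = g u) → sel c g' r = sel c g r := by
  classical
  have h1 := exists_QS h
  let F : ℕ → Finset (List Bool) := fun n =>
    ((Encodable.decode n : Option (List Bool × List Bool)).map fun p =>
      ({r ++ p.1, r ++ p.2} : Finset (List Bool))).getD ∅
  refine ⟨(Finset.range (Nat.find h1 + 1)).biUnion F, fun g' hg' => ?_⟩
  have key : ∀ n ≤ Nat.find h1, QS c g' r n ↔ QS c g r n := by
    intro n hn
    have h2 : ∀ p : List Bool × List Bool, Encodable.decode n = some p →
        g' (r ++ p.1) = g (r ++ p.1) ∧ g' (r ++ p.2) = g (r ++ p.2) := by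
      intro p hp
      have h3 : F n = {r ++ p.1, r ++ p.2} := by
        simp only [F]
        rw [hp]
        rfl
      have h4 : ∀ u ∈ F n, g' u = g u := fun u hu =>
        hg' u (Finset.mem_biUnion.2 ⟨n, Finset.mem_range.2 (Nat.lt_succ_of_le hn), hu⟩)
      rw [h3] at h4
      exact ⟨h4 _ (by simp), h4 _ (by simp)⟩
    constructor
    · rintro ⟨p, hp, l, b, h3, h4⟩
      rw [(h2 p hp).1] at h3
      rw [(h2 p hp).2] at h4
      exact ⟨p, hp, l, b, h3, h4⟩
    · rintro ⟨p, hp, l, b, h3, h4⟩
      rw [← (h2 p hp).1] at h3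
      rw [← (h2 p hp).2] at h4
      exact ⟨p, hp, l, b, h3, h4⟩
  have h2 : ∃ n, QS c g' r n := ⟨_, (key _ le_rfl).2 (Nat.find_spec h1)⟩
  have h3 : Nat.find h2 = Nat.find h1 := by
    apply le_antisymm
    · exact Nat.find_min' h2 ((key _ le_rfl).2 (Nat.find_spec h1))
    · by_contra hcon
      push Not at hcon
      exact Nat.find_min h1 hcon ((key _ hcon.le).1 (Nat.find_spec h2))
  unfold sel
  rw [dif_pos h1, dif_pos h2, h3]

/-- one step of the construction of the splitting subtree -/
noncomputable def hstep (c : OCode) (g : List Bool → List Bool) (r : List Bool) (b : Bool) :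
    List Bool :=
  r ++ (if b then (sel c g r).1 else (sel c g r).2)

/-- the splitting subtree -/
noncomputable def hh (c : OCode) (g : List Bool → List Bool) (s : List Bool) : List Bool :=
  s.foldl (hstep c g) []

theorem hh_append (c : OCode) (g : List Bool → List Bool) (s : List Bool) (b : Bool) :
    hh c g (s ++ [b]) = hstep c g (hh c g s) b := by
  simp [hh]

theorem prefix_foldl (c : OCode) (g : List Bool → List Bool) (t r : List Bool) :
    r <+: t.foldl (hstep c g) r := by
  induction t generalizing r with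
  | nil => exact List.prefix_rfl
  | cons b t ih => exact (List.prefix_append _ _).trans (ih (hstep c g r b))

theorem isTree_hh {c : OCode} {g : List Bool → List Bool} (hg : IsTree g)
    (h : ∀ r, ∃ p, SP c g r p) : IsTree (hh c g) := by
  refine ⟨fun s t => ?_, fun s x h1 h2 => ?_⟩
  · unfold hh
    rw [List.foldl_append]
    exact prefix_foldl c g t _
  · obtain ⟨l, b, h3, h4⟩ := sel_spec (h (hh c g s))
    rw [hh_append] at h1 h2
    simp only [hstep, if_true] at h1
    simp only [hstep] at h2
    have h2' : Ext (hh c g s ++ (sel c g (hh c g s)).2) x := by simpa using h2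
    have h5 := h1.eq_pre
    have h6 := h2'.eq_pre
    rcases le_total (hh c g s ++ (sel c g (hh c g s)).1).length
      (hh c g s ++ (sel c g (hh c g s)).2).length with hle | hle
    · have h7 := pre_prefix x hle
      rw [← h5, ← h6] at h7
      exact (h3.mono (hg.of_prefix h7)).false h4
    · have h7 := pre_prefix x hle
      rw [← h5, ← h6] at h7
      exact h3.false (h4.mono (hg.of_prefix h7))

/-- the functional `c` splits on the tree `g` -/
def Splits (c : OCode) (g : List Bool → List Bool) : Prop :=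
  ∀ s, ∃ l b, W c (g (s ++ [true])) l b ∧ W c (g (s ++ [false])) l (!b)

theorem splits_hh {c : OCode} {g : List Bool → List Bool} (h : ∀ r, ∃ p, SP c g r p) :
    Splits c fun s => g (hh c g s) := by
  intro s
  obtain ⟨l, b, h3, h4⟩ := sel_spec (h (hh c g s))
  refine ⟨l, b, ?_, ?_⟩
  · change W c (g (hh c g (s ++ [true]))) l b
    rw [hh_append]
    simpa [hstep] using h3
  · change W c (g (hh c g (s ++ [false]))) l (!b)
    rw [hh_append]
    simpa [hstep] using h4

theorem hh_congr {c : OCode} {g : List Bool → List Bool} (h : ∀ r, ∃ p, SP c g r p)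
    (s : List Bool) : ∃ S : Finset (List Bool), ∀ g' : List Bool → List Bool,
      (∀ u ∈ S, g' u = g u) → hh c g' s = hh c g s := by
  classical
  induction s using List.reverseRecOn with
  | nil => exact ⟨∅, fun g' _ => rfl⟩
  | append_singleton s b ih =>
    obtain ⟨S, hS⟩ := ih
    obtain ⟨S', hS'⟩ := sel_congr (h (hh c g s))
    refine ⟨S ∪ S', fun g' hg' => ?_⟩
    rw [hh_append, hh_append, hS g' fun u hu => hg' u (Finset.mem_union_left _ hu)]
    unfold hstep
    rw [hS' g' fun u hu => hg' u (Finset.mem_union_right _ hu)]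

/-- The closure properties of a sufficiently strong oracle `J`. -/
structure Good (J : ℕ → Bool) : Prop where
  idt : TLE (cg fun s => s) J
  val : ∀ g a, TLE (cg g) J → TLE a J → TLE (G g a) J
  inv : ∀ g a, IsTree g → TLE (cg g) J → TLE (G g a) J → TLE a J
  zpc : ∀ g z, TLE (cg g) J → TLE z J → TLE (cg fun s => g (zp z s)) J
  app : ∀ g σ, TLE (cg g) J → TLE (cg fun s => g (σ ++ s)) J
  spl : ∀ c g, (∀ r, ∃ p, SP c g r p) → TLE (cg g) J → TLE (cg fun s => g (hh c g s)) J
  rcv : ∀ c g a y, IsTree g → Splits c g → TLE (cg g) J → (∀ l, G g a ∈ U c l (y l)) →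
    TLE y J → TLE a J
  con : ∀ c g y, (∀ l, ∃ τ b, W c (g τ) l b) → (∀ l τ b, W c (g τ) l b → y l = b) →
    TLE (cg g) J → TLE y J

theorem exists_good : ∃ Z : ℕ → Bool, ∀ J, TLE Z J → Good J := by
  classical
  obtain ⟨Z2, h2⟩ := op (ι := (ℕ → Bool) × (List Bool → List Bool)) (fun i => i.1) (fun i => i.2)
    (fun i => G i.2 i.1) (fun i l => ⟨l + 1, {pre i.1 (l + 1)}, fun j h1 h2 =>
      G_congr h1 (h2 _ (Finset.mem_singleton_self _))⟩)
  obtain ⟨Z3, h3⟩ := op (ι := {i : (ℕ → Bool) × (List Bool → List Bool) // IsTree i.2})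
    (fun i => G i.1.2 i.1.1) (fun i => i.1.2) (fun i => i.1.1) (by
      rintro ⟨⟨a, g⟩, hg⟩ l
      refine ⟨(g (pre a (l + 1))).length, strs (l + 1), ?_⟩
      rintro ⟨⟨a', g'⟩, hg'⟩ h1 h2
      dsimp only at h1 h2 hg hg' ⊢
      by_contra hne
      obtain ⟨i, hi, h3, h4⟩ := exists_first_diff hne
      have h5 : g' (pre a' (i + 1)) = g (pre a i ++ [!a i]) := by
        rw [pre_succ, h4, h3]
        exact h2 _ (mem_strs.2 (by rw [List.length_append, length_pre]; simpa using hi))
      have h6 := hg'.ext_G a' (i + 1)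
      rw [h5] at h6
      have h7 := hg.ext_G a (i + 1)
      rw [pre_succ] at h7
      refine hg.split' (pre a i) (a i) (h7.congr fun k hk => ?_) h6
      refine (h1 k (hk.trans_le ?_)).symm
      rw [← pre_succ]
      exact (hg.of_prefix (pre_prefix a (by omega))).length_le)
  obtain ⟨Z4, h4⟩ := op_tree (ι := (ℕ → Bool) × (List Bool → List Bool)) (fun i => i.1)
    (fun i => i.2) (fun i s => i.2 (zp i.1 s)) (by
      rintro ⟨z, g⟩ s
      refine ⟨s.length, {zp z s}, ?_⟩
      rintro ⟨z', g'⟩ h1 h2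
      dsimp only at h1 h2 ⊢
      rw [zp_congr h1]
      exact h2 _ (Finset.mem_singleton_self _))
  choose Z5 h5 using fun σ : List Bool => op_tree (ι := List Bool → List Bool)
    (fun _ _ => false) (fun g => g) (fun g s => g (σ ++ s))
    (fun g s => ⟨0, {σ ++ s}, fun g' _ h => h _ (Finset.mem_singleton_self _)⟩)
  choose Z6 h6 using fun c : OCode => op_tree
    (ι := {g : List Bool → List Bool // ∀ r, ∃ p, SP c g r p})
    (fun _ _ => false) (fun g => g.1) (fun g s => g.1 (hh c g.1 s)) (by
      rintro ⟨g, hg⟩ s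
      obtain ⟨S, hS⟩ := hh_congr hg s
      refine ⟨0, insert (hh c g s) S, ?_⟩
      rintro ⟨g', hg'⟩ _ h
      dsimp only at h ⊢
      rw [hS g' fun u hu => h u (Finset.mem_insert_of_mem hu)]
      exact h _ (Finset.mem_insert_self _ _))
  choose Z7 h7 using fun c : OCode => op
    (ι := {i : ((ℕ → Bool) × (List Bool → List Bool)) × (ℕ → Bool) //
      IsTree i.1.2 ∧ Splits c i.1.2 ∧ ∀ l, G i.1.2 i.1.1 ∈ U c l (i.2 l)})
    (fun i => i.1.2) (fun i => i.1.1.2) (fun i => i.1.1.1) (by
      rintro ⟨⟨⟨a, g⟩, y⟩, hg, hs, hy⟩ l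
      dsimp only at hg hs hy
      obtain ⟨L, B, hL⟩ : ∃ (L : List Bool → ℕ) (B : List Bool → Bool),
          ∀ s, W c (g (s ++ [true])) (L s) (B s) ∧ W c (g (s ++ [false])) (L s) (!(B s)) := by
        have hs2 := hs
        unfold Splits at hs2
        exact ⟨fun s => (hs2 s).choose, fun s => (hs2 s).choose_spec.choose,
          fun s => (hs2 s).choose_spec.choose_spec⟩
      refine ⟨∑ s ∈ strs l, (L s + 1), strs (l + 1), ?_⟩
      rintro ⟨⟨⟨a', g'⟩, y'⟩, hg', hs', hy'⟩ h1 h2
      dsimp only at h1 h2 hg' hs' hy' ⊢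
      by_contra hne
      obtain ⟨i, hi, h3, h4⟩ := exists_first_diff hne
      have h5 : g' (pre a' (i + 1)) = g (pre a i ++ [!a i]) := by
        rw [pre_succ, h4, h3]
        exact h2 _ (mem_strs.2 (by rw [List.length_append, length_pre]; simpa using hi))
      have h6 := hg'.ext_G a' (i + 1)
      rw [h5] at h6
      have h7 := hg.ext_G a (i + 1)
      rw [pre_succ] at h7
      have h8 : y' (L (pre a i)) = y (L (pre a i)) := by
        refine h1 _ ?_
        have : L (pre a i) + 1 ≤ ∑ s ∈ strs l, (L s + 1) :=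
          Finset.single_le_sum (f := fun s => L s + 1) (fun _ _ => Nat.zero_le _)
            (mem_strs.2 (by rw [length_pre]; exact hi))
        omega
      obtain ⟨h9, h10⟩ := hL (pre a i)
      have h11 : y (L (pre a i)) ≠ y' (L (pre a i)) := by
        cases hai : a i with
        | true =>
          rw [hai] at h6 h7
          have e1 := U_unique (hy _) (h9 _ h7)
          have e2 := U_unique (hy' _) (h10 _ h6)
          rw [e1, e2]
          cases B (pre a i) <;> simp
        | false =>
          rw [hai] at h6 h7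
          have e1 := U_unique (hy _) (h10 _ h7)
          have e2 := U_unique (hy' _) (h9 _ h6)
          rw [e1, e2]
          cases B (pre a i) <;> simp
      exact h11 h8.symm)
  choose Z8 h8 using fun c : OCode => op
    (ι := {i : (List Bool → List Bool) × (ℕ → Bool) //
      (∀ l, ∃ τ b, W c (i.1 τ) l b) ∧ ∀ l τ b, W c (i.1 τ) l b → i.2 l = b})
    (fun _ _ => false) (fun i => i.1.1) (fun i => i.1.2) (by
      rintro ⟨⟨g, y⟩, h1, h2⟩ l
      dsimp only at h1 h2
      obtain ⟨τ, b, hb⟩ := h1 l
      refine ⟨0, {τ}, ?_⟩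
      rintro ⟨⟨g', y'⟩, h1', h2'⟩ _ h
      dsimp only at h1' h2' h ⊢
      rw [h2 l τ b hb]
      rw [← h τ (Finset.mem_singleton_self _)] at hb
      exact h2' l τ b hb)
  obtain ⟨Y, hY⟩ := exists_bound (ι := Fin 4 ⊕ (List Bool ⊕ (OCode ⊕ (OCode ⊕ OCode))))
    (Sum.elim ![cg fun s => s, Z2, Z3, Z4] (Sum.elim Z5 (Sum.elim Z6 (Sum.elim Z7 Z8))))
  obtain ⟨Y', hY'⟩ := exists_bound (ι := Bool) (fun b => if b then Y else fun _ => false)
  refine ⟨Y', fun J hJ => ?_⟩
  have hYJ : TLE Y J := by
    have := hY' true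
    rw [if_pos rfl] at this
    exact this.trans hJ
  have hF : TLE (fun _ => false) J := by
    have := hY' false
    simp only [Bool.false_eq_true, if_false] at this
    exact this.trans hJ
  have hb := fun i => (hY i).trans hYJ
  refine ⟨hb (Sum.inl 0), fun g a hg ha => ?_, fun g a hg hc ha => ?_, fun g z hg hz => ?_,
    fun g σ hg => ?_, fun c g hs hg => ?_, fun c g a y hg hs hc hy hyJ => ?_,
    fun c g y k1 k2 hg => ?_⟩
  · exact h2 (a, g) J ha hg (hb (Sum.inl 1))
  · exact h3 ⟨(a, g), hg⟩ J ha hc (hb (Sum.inl 2))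
  · exact h4 (z, g) J hz hg (hb (Sum.inl 3))
  · exact h5 σ g J hF hg (hb (Sum.inr (Sum.inl σ)))
  · exact h6 c ⟨g, hs⟩ J hF hg (hb (Sum.inr (Sum.inr (Sum.inl c))))
  · exact h7 c ⟨((a, g), y), hg, hs, hy⟩ J hyJ hc (hb (Sum.inr (Sum.inr (Sum.inr (Sum.inl c)))))
  · exact h8 c ⟨(g, y), k1, k2⟩ J hF hg (hb (Sum.inr (Sum.inr (Sum.inr (Sum.inr c)))))

end Pool.Agent.Helper55AX
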