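import Mathlib
import Pool.Agent.Helper55_AX.Split

/-!
# Minimal upper bounds in the Turing degrees
-/

set_option autoImplicit false

namespace Pool.Agent.Helper55AX

open Pool.Agent.Helper25TD Set

/-- one functional: there is a subtree on which the functional is not total, or has values below
`z`, or is one to one -/
theorem min_functional {z : ℕ → Bool} (hz : ∀ J, TLE z J → Good J) (c : OCode)
    {g : List Bool → List Bool} (hg : IsTree g) (hgz : TLE (cg g) z) :
    ∃ g' : List Bool → List Bool, IsTree g' ∧ TLE (cg g') z ∧ (∀ a, ∃ a', G g' a = G g a') ∧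
      ∀ a y, (∀ l, G g' a ∈ U c l (y l)) → TLE y z ∨ TLE (G g' a) (join y z) := by
  by_cases h : ∀ r, ∃ p, SP c g r p
  · have hh1 := isTree_hh hg h
    refine ⟨fun s => g (hh c g s), hg.comp hh1, (hz z (TLE.refl z)).spl c g h hgz,
      fun a => ⟨_, hg.G_comp hh1 a⟩, fun a y hy => Or.inr ?_⟩
    have h1 := hz (join y z) (TLE.join_right y z)
    have h2 : TLE (cg fun s => g (hh c g s)) (join y z) :=
      ((hz z (TLE.refl z)).spl c g h hgz).trans (TLE.join_right y z)
    exact h1.val _ a h2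
      (h1.rcv c _ a y (hg.comp hh1) (splits_hh h) h2 hy (TLE.join_left y z))
  · push Not at h
    obtain ⟨r, hr⟩ := h
    refine ⟨fun s => g (r ++ s), hg.comp (isTree_append r), (hz z (TLE.refl z)).app g r hgz,
      fun a => ⟨_, G_append hg r a⟩, fun a y hy => Or.inl ?_⟩
    have h1 : ∀ l, ∃ n, W c (g (r ++ pre a n)) l (y l) := fun l =>
      (hg.comp (isTree_append r)).exists_W (hy l)
    refine (hz z (TLE.refl z)).con c (fun s => g (r ++ s)) y
      (fun l => ⟨_, _, (h1 l).choose_spec⟩) (fun l τ b hb => ?_)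
      ((hz z (TLE.refl z)).app g r hgz)
    obtain ⟨n, hn⟩ := h1 l
    by_contra hne
    have h2 : y l = !b := by cases hyl : y l <;> cases b <;> simp_all
    rw [h2] at hn
    exact hr (τ, pre a n) ⟨l, b, hb, hn⟩

/-- one step of the construction -/
theorem min_step {z z' : ℕ → Bool} (hz : ∀ J, TLE z J → Good J) (hzz : TLE z z') (c : OCode)
    (x : ℕ → Bool) {g : List Bool → List Bool} (hg : IsTree g) (hgz : TLE (cg g) z) :
    ∃ g' : List Bool → List Bool, IsTree g' ∧ TLE (cg g') z' ∧ (∀ a, ∃ a', G g' a = G g a') ∧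
      (∀ a y, (∀ l, G g' a ∈ U c l (y l)) → TLE y z ∨ TLE (G g' a) (join y z)) ∧
      (∀ a, G g' a ≠ x) ∧ ∀ a, TLE z (G g' a) → TLE z' (G g' a) := by
  obtain ⟨g1, h1, h2, h3, h4⟩ := min_functional hz c hg hgz
  obtain ⟨b, hb⟩ : ∃ b : Bool, ¬ Ext (g1 [b]) x := by
    by_contra hcon
    push Not at hcon
    exact h1.split [] x (hcon true) (hcon false)
  have h5 : IsTree fun s => g1 ([b] ++ s) := h1.comp (isTree_append [b])
  have h6 : TLE (cg fun s => g1 ([b] ++ s)) z := (hz z (TLE.refl z)).app g1 [b] h2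
  have h7 : ∀ a, G (fun s => g1 ([b] ++ zp z' s)) a = G g1 (cat [b] (join z' a)) := by
    intro a
    rw [← G_append h1, ← G_zp z' a]
    exact h5.G_comp (isTree_zp z') a
  have h8 : ∀ a, G (fun s => g1 ([b] ++ zp z' s)) a =
      G (fun s => g1 ([b] ++ s)) (join z' a) := by
    intro a
    rw [h7, G_append h1]
  refine ⟨fun s => g1 ([b] ++ zp z' s), h5.comp (isTree_zp z'), ?_, fun a => ?_,
    fun a y hy => ?_, fun a hax => ?_, fun a hza => ?_⟩
  · exact (hz z' hzz).zpc (fun s => g1 ([b] ++ s)) z' (h6.trans hzz) (TLE.refl z')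
  · rw [h7]
    exact h3 _
  · rw [h7] at hy ⊢
    exact h4 _ y hy
  · have h9 := h5.ext_G (join z' a) 0
    rw [← h8, hax] at h9
    refine hb (h9.of_prefix ?_)
    simp [pre]
  · have h9 := (hz _ hza).inv (fun s => g1 ([b] ++ s)) (join z' a) h5 (h6.trans hza)
      (by rw [← h8]; exact TLE.refl _)
    exact (TLE.join_left z' a).trans h9

/-- **Minimal upper bounds.** -/
theorem exists_min : ∃ Z : ℕ → Bool, ∀ (X : Set (ℕ → Bool)) (z : ℕ → (ℕ → Bool)), X.Countable →
    TLE Z (z 0) → (∀ n, TLE (z n) (z (n + 1))) →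
    ∃ t, t ∉ X ∧ (∀ n, TLE (z n) t) ∧
      ∀ y, TLE y t → (∃ n, TLE y (z n)) ∨ ∃ n, TLE t (join y (z n)) := by
  obtain ⟨Z, hZ⟩ := exists_good
  refine ⟨Z, fun X z hX h0 hz => ?_⟩
  have hle : ∀ n, TLE Z (z n) := by
    intro n
    induction n with
    | zero => exact h0
    | succ n ih => exact ih.trans (hz n)
  have hgood : ∀ n J, TLE (z n) J → Good J := fun n J hJ => hZ J ((hle n).trans hJ)
  obtain ⟨ec, hec⟩ : ∃ e : ℕ → OCode, Function.Surjective e := by
    haveI : Nonempty OCode := ⟨(exists_U (TLE.refl Z)).choose⟩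
    exact exists_surjective_nat OCode
  obtain ⟨ex, hex⟩ : ∃ e : ℕ → (ℕ → Bool), X ⊆ range e := by
    rcases X.eq_empty_or_nonempty with h | h
    · exact ⟨fun _ => Z, by rw [h]; exact empty_subset _⟩
    · obtain ⟨e, he⟩ := hX.exists_eq_range h
      exact ⟨e, he.subset⟩
  have step : ∀ n (g : {g : List Bool → List Bool // IsTree g ∧ TLE (cg g) (z n)}),
      ∃ g' : {g : List Bool → List Bool // IsTree g ∧ TLE (cg g) (z (n + 1))},
        (∀ a, ∃ a', G g'.1 a = G g.1 a') ∧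
        (∀ a y, (∀ l, G g'.1 a ∈ U (ec n) l (y l)) →
          TLE y (z n) ∨ TLE (G g'.1 a) (join y (z n))) ∧
        (∀ a, G g'.1 a ≠ ex n) ∧ ∀ a, TLE (z n) (G g'.1 a) → TLE (z (n + 1)) (G g'.1 a) := by
    rintro n ⟨g, hg1, hg2⟩
    obtain ⟨g', h1, h2, h3, h4, h5, h6⟩ := min_step (hgood n) (hz n) (ec n) (ex n) hg1 hg2
    exact ⟨⟨g', h1, h2⟩, h3, h4, h5, h6⟩
  choose F hF using step
  let g0 : {g : List Bool → List Bool // IsTree g ∧ TLE (cg g) (z 0)} :=
    ⟨fun s => zp (z 0) s, isTree_zp (z 0),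
      (hgood 0 (z 0) (TLE.refl _)).zpc (fun s => s) (z 0)
        (hgood 0 (z 0) (TLE.refl _)).idt (TLE.refl _)⟩
  let gs : ∀ n, {g : List Bool → List Bool // IsTree g ∧ TLE (cg g) (z n)} :=
    fun n => Nat.rec g0 F n
  have hgs : ∀ n, gs (n + 1) = F n (gs n) := fun n => rfl
  have hnest : ∀ n, range (G (gs (n + 1)).1) ⊆ range (G (gs n).1) := by
    rintro n _ ⟨a, rfl⟩
    obtain ⟨a', ha'⟩ := (hF n (gs n)).1 a
    rw [hgs, ha']
    exact mem_range_self _
  have hcpt : ∀ n, IsCompact (range (G (gs n).1)) := fun n =>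
    isCompact_range (continuous_G _)
  obtain ⟨t, ht⟩ := IsCompact.nonempty_iInter_of_sequence_nonempty_isCompact_isClosed
    (fun n => range (G (gs n).1)) hnest (fun n => range_nonempty _) (hcpt 0)
    (fun n => (hcpt n).isClosed)
  rw [mem_iInter] at ht
  have hzt : ∀ n, TLE (z n) t := by
    intro n
    induction n with
    | zero =>
      obtain ⟨a, ha⟩ := ht 0
      change G (fun s => zp (z 0) s) a = t at ha
      rw [← ha]
      change TLE (z 0) (G (zp (z 0)) a)
      rw [G_zp]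
      exact TLE.join_left _ _
    | succ n ih =>
      obtain ⟨a, ha⟩ := ht (n + 1)
      have h1 := (hF n (gs n)).2.2.2 a
      rw [← hgs] at h1
      change G (gs (n + 1)).1 a = t at ha
      rw [ha] at h1
      exact h1 ih
  refine ⟨t, fun htX => ?_, hzt, fun y hy => ?_⟩
  · obtain ⟨n, hn⟩ := hex htX
    obtain ⟨a, ha⟩ := ht (n + 1)
    exact (hF n (gs n)).2.2.1 a (ha.trans hn.symm)
  · obtain ⟨c, hc⟩ := exists_U hy
    obtain ⟨n, rfl⟩ := hec c
    obtain ⟨a, ha⟩ := ht (n + 1)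
    change G (gs (n + 1)).1 a = t at ha
    have h1 := (hF n (gs n)).2.1 a y
    rw [← hgs, ha] at h1
    rcases h1 hc with h2 | h2
    · exact Or.inl ⟨n, h2⟩
    · exact Or.inr ⟨n, h2⟩

end Pool.Agent.Helper55AX
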