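import Mathlib
import Pool.Agent.Helper55_AX.Min

/-!
# Two minimal covers whose join computes a given real
-/

set_option autoImplicit false

namespace Pool.Agent.Helper55AX

open Pool.Agent.Helper25TD Set

/-- the real `a` begins with the code of the number `n` and the bit `c` -/
def Cod (n : ℕ) (c : Bool) (a : ℕ → Bool) : Prop := (∀ i < n, a i = true) ∧ a n = false ∧ a (n + 1) = c

theorem Cod.unique {n n' : ℕ} {c c' : Bool} {a : ℕ → Bool} (h : Cod n c a) (h' : Cod n' c' a) :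
    n = n' ∧ c = c' := by
  have h1 : n = n' := by
    rcases lt_trichotomy n n' with h2 | h2 | h2
    · have := h'.1 n h2
      rw [h.2.1] at this
      exact absurd this (by simp)
    · exact h2
    · have := h.1 n' h2
      rw [h'.2.1] at this
      exact absurd this (by simp)
  subst h1
  exact ⟨rfl, h.2.2.symm.trans h'.2.2⟩

theorem Cod.congr {n : ℕ} {c : Bool} {a a' : ℕ → Bool} (h : Cod n c a)
    (h' : ∀ i < n + 2, a' i = a i) : Cod n c a' :=
  ⟨fun i hi => (h' i (by omega)).trans (h.1 i hi), (h' n (by omega)).trans h.2.1,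
    (h' (n + 1) (by omega)).trans h.2.2⟩

/-- the code of the number `n` and the bit `c` -/
def bt (n : ℕ) (c : Bool) : List Bool := List.replicate n true ++ [false, c]

theorem cod_cat (n : ℕ) (c : Bool) (b : ℕ → Bool) : Cod n c (cat (bt n c) b) := by
  have hl : (bt n c).length = n + 2 := by simp [bt]
  refine ⟨fun i hi => ?_, ?_, ?_⟩
  · unfold cat
    rw [if_pos (by omega), List.getD_eq_getElem?_getD]
    unfold bt
    rw [List.getElem?_append_left (by simpa using hi)]
    simp [hi]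
  · unfold cat
    rw [if_pos (by omega), List.getD_eq_getElem?_getD]
    unfold bt
    rw [List.getElem?_append_right (by simp)]
    simp
  · unfold cat
    rw [if_pos (by omega), List.getD_eq_getElem?_getD]
    unfold bt
    rw [List.getElem?_append_right (by simp)]
    simp

/-- the branch depends continuously on its image -/
theorem branch_congr {h h' : List Bool → List Bool} (hh : IsTree h) (hh' : IsTree h')
    {a a' : ℕ → Bool} {L : ℕ} (h1 : ∀ s, s.length ≤ L → h' s = h s)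
    (h2 : ∀ i < (h (pre a L)).length, G h' a' i = G h a i) : ∀ i < L, a' i = a i := by
  intro i hi
  by_contra hne
  obtain ⟨k, hk, h3, h4⟩ := exists_first_diff hne
  have h5 := hh'.ext_G a' (k + 1)
  rw [pre_succ, h4, h3, h1 _ (by rw [List.length_append, length_pre]; simp; omega)] at h5
  have h6 := hh.ext_G a (k + 1)
  have h7 : (h (pre a (k + 1))).length ≤ (h (pre a L)).length :=
    (hh.of_prefix (pre_prefix a (by omega))).length_le
  have h8 : Ext (h (pre a (k + 1))) (G h' a') := h6.congr fun j hj => (h2 j (by omega)).symm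
  rw [pre_succ] at h8
  exact hh.split' (pre a k) (a k) h8 h5

/-- a map between strings that is computed from `z` with the code `c` depends continuously on
`z` -/
theorem tree_agree (c : OCode) (z : ℕ → Bool) (g : List Bool → List Bool)
    (h : ∀ l, z ∈ U c l (cg g l)) (S : Finset (List Bool)) :
    ∃ N, ∀ (z' : ℕ → Bool) (g' : List Bool → List Bool), (∀ j < N, z' j = z j) →
      (∀ l, z' ∈ U c l (cg g' l)) → ∀ s ∈ S, g' s = g s := by
  classical
  let p : List Bool → ℕ := fun s => Nat.pair (Encodable.encode s) (Encodable.encode (g s))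
  have h1 : ∀ s, ∃ N, ∀ z' : ℕ → Bool, (∀ j < N, z' j = z j) → z' ∈ U c (p s) (cg g (p s)) := by
    intro s
    obtain ⟨N, hN⟩ := exists_cyl (isOpen_U c (p s) (cg g (p s))) (h (p s))
    exact ⟨N, fun z' hz' => hN z' hz'⟩
  choose N hN using h1
  refine ⟨∑ s ∈ S, N s, fun z' g' hz' hg' s hs => ?_⟩
  have h2 : N s ≤ ∑ s ∈ S, N s :=
    Finset.single_le_sum (f := N) (fun _ _ => Nat.zero_le _) hs
  have h3 := hN s z' fun j hj => hz' j (hj.trans_le h2)
  exact cg_spec (U_unique (hg' (p s)) h3)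

/-- The data of the simultaneous construction of two minimal covers `t0`, `t1` of `z`: the two
sequences of trees and their codes. -/
structure Run (ec : ℕ → OCode) where
  z : ℕ → Bool
  w : ℕ → Bool
  t0 : ℕ → Bool
  t1 : ℕ → Bool
  g : ℕ → List Bool → List Bool
  h : ℕ → List Bool → List Bool
  n : ℕ → ℕ
  m : ℕ → ℕ
  h0 : ∀ s, h 0 s = zp z s
  tg : ∀ k, IsTree (g k)
  th : ∀ k, IsTree (h k)
  c1 : ∀ k, ∃ a, Cod (n k) (w k) a ∧ t1 = G (h k) a
  e1 : ∀ k l, z ∈ U (ec (n k)) l (cg (g k) l)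
  c0 : ∀ k, ∃ a, Cod (m k) false a ∧ t0 = G (g k) a
  e0 : ∀ k l, z ∈ U (ec (m k)) l (cg (h (k + 1)) l)

/-- agreement of two runs up to `N` -/
def Run.Agr {ec : ℕ → OCode} (N : ℕ) (R R' : Run ec) : Prop :=
  ∀ j < N, R'.t0 j = R.t0 j ∧ R'.t1 j = R.t1 j ∧ R'.z j = R.z j

theorem Run.step {ec : ℕ → OCode} (R : Run ec) (k : ℕ) (S : Finset (List Bool)) :
    ∃ N, ∀ R' : Run ec, R.Agr N R' →
      (∀ s ∈ S, R'.h k s = R.h k s) ∧ ∀ k' < k, R'.w k' = R.w k' := by
  induction k generalizing S with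
  | zero =>
    refine ⟨∑ s ∈ S, s.length, fun R' hR => ⟨fun s hs => ?_, fun k' hk' => absurd hk' (by omega)⟩⟩
    rw [R.h0, R'.h0]
    refine zp_congr fun i hi => (hR i ?_).2.2
    have h2 : s.length ≤ ∑ s ∈ S, s.length :=
      Finset.single_le_sum (f := fun s : List Bool => s.length) (fun _ _ => Nat.zero_le _) hs
    omega
  | succ k ih =>
    obtain ⟨a, ha1, ha2⟩ := R.c1 k
    obtain ⟨b, hb1, hb2⟩ := R.c0 k
    obtain ⟨N1, hN1⟩ := ih (strs (R.n k + 2))
    obtain ⟨N2, hN2⟩ := tree_agree (ec (R.n k)) R.z (R.g k) (R.e1 k) (strs (R.m k + 2))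
    obtain ⟨N3, hN3⟩ := tree_agree (ec (R.m k)) R.z (R.h (k + 1)) (R.e0 k) S
    refine ⟨N1 + N2 + N3 + (R.h k (pre a (R.n k + 2))).length +
      (R.g k (pre b (R.m k + 2))).length, fun R' hR => ?_⟩
    obtain ⟨h1, h2⟩ := hN1 R' fun j hj => hR j (by omega)
    obtain ⟨a', ha1', ha2'⟩ := R'.c1 k
    have h3 : ∀ i < R.n k + 2, a' i = a i := by
      refine branch_congr (R.th k) (R'.th k) (fun s hs => h1 s (mem_strs.2 hs)) fun i hi => ?_
      rw [← ha2, ← ha2']
      exact (hR i (by omega)).2.1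
    obtain ⟨h4, h5⟩ := (ha1.congr h3).unique ha1'
    have h6 : ∀ s ∈ strs (R.m k + 2), R'.g k s = R.g k s := by
      refine hN2 R'.z (R'.g k) (fun j hj => (hR j (by omega)).2.2) fun l => ?_
      rw [h4]
      exact R'.e1 k l
    obtain ⟨b', hb1', hb2'⟩ := R'.c0 k
    have h7 : ∀ i < R.m k + 2, b' i = b i := by
      refine branch_congr (R.tg k) (R'.tg k) (fun s hs => h6 s (mem_strs.2 hs)) fun i hi => ?_
      rw [← hb2, ← hb2']
      exact (hR i (by omega)).1
    obtain ⟨h8, _⟩ := (hb1.congr h7).unique hb1'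
    refine ⟨hN3 R'.z (R'.h (k + 1)) (fun j hj => (hR j (by omega)).2.2) fun l => ?_,
      fun k' hk' => ?_⟩
    · rw [h8]
      exact R'.e0 k l
    · rcases Nat.lt_succ_iff_lt_or_eq.1 hk' with h9 | h9
      · exact h2 k' h9
      · rw [h9]
        exact h5.symm

/-- The real `w` can be computed from the two minimal covers. -/
theorem Run.decode (ec : ℕ → OCode) :
    ∃ Z : ℕ → Bool, ∀ (R : Run ec) (J : ℕ → Bool), TLE R.t0 J → TLE R.t1 J → TLE R.z J →
      TLE (cg fun s => s) J → TLE Z J → TLE R.w J := by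
  obtain ⟨Z, hZ⟩ := op (ι := Run ec) (fun R => join (join R.t0 R.t1) R.z) (fun _ s => s)
    (fun R => R.w) (by
      intro R l
      obtain ⟨N, hN⟩ := R.step (l + 1) ∅
      refine ⟨4 * N, ∅, fun R' h _ => (hN R' fun j hj => ?_).2 l (Nat.lt_succ_self l)⟩
      have h1 : ∀ i < 2 * N, join R'.t0 R'.t1 i = join R.t0 R.t1 i := by
        intro i hi
        have := h (2 * i) (by omega)
        unfold join at this ⊢
        have h2 : (2 * i) % 2 = 0 := by omega
        have h3 : (2 * i) / 2 = i := by omega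
        simpa only [h2, h3, if_true] using this
      have h2 : R'.z j = R.z j := by
        have := h (2 * j + 1) (by omega)
        have h2 : (2 * j + 1) % 2 ≠ 0 := by omega
        have h3 : (2 * j + 1) / 2 = j := by omega
        simpa only [join, h2, h3, if_false] using this
      have h3 : R'.t0 j = R.t0 j := by
        have := h1 (2 * j) (by omega)
        have h2 : (2 * j) % 2 = 0 := by omega
        have h3 : (2 * j) / 2 = j := by omega
        simpa only [join, h2, h3, if_true] using this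
      have h4 : R'.t1 j = R.t1 j := by
        have := h1 (2 * j + 1) (by omega)
        have h2 : (2 * j + 1) % 2 ≠ 0 := by omega
        have h3 : (2 * j + 1) / 2 = j := by omega
        simpa only [join, h2, h3, if_false] using this
      exact ⟨h3, h4, h2⟩)
  exact ⟨Z, fun R J h0 h1 hz hi hZJ => hZ R J (TLE.join (TLE.join h0 h1) hz) hi hZJ⟩

/-- **Two minimal covers that together compute a given real.** -/
theorem exists_pair : ∃ Z : ℕ → Bool, ∀ z w : ℕ → Bool, TLE Z z → ∃ t0 t1 : ℕ → Bool,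
    (TLE z t0 ∧ ∀ y, TLE y t0 → TLE y z ∨ TLE t0 (join y z)) ∧
    (TLE z t1 ∧ ∀ y, TLE y t1 → TLE y z ∨ TLE t1 (join y z)) ∧
    ∀ J, TLE t0 J → TLE t1 J → TLE w J := by
  obtain ⟨Z0, hZ0⟩ := exists_good
  obtain ⟨ec, hec⟩ : ∃ e : ℕ → OCode, Function.Surjective e := by
    have : Nonempty OCode := ⟨(exists_U (TLE.refl Z0)).choose⟩
    exact exists_surjective_nat OCode
  obtain ⟨Z1, hZ1⟩ := Run.decode ec
  refine ⟨join Z0 Z1, fun z w hz => ?_⟩
  have hgood : ∀ J, TLE z J → Good J := fun J hJ =>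
    hZ0 J (((TLE.join_left Z0 Z1).trans hz).trans hJ)
  have hgz := hgood z (TLE.refl z)
  have code : ∀ g : List Bool → List Bool, TLE (cg g) z → ∃ n, ∀ l, z ∈ U (ec n) l (cg g l) := by
    intro g hg
    obtain ⟨c, hc⟩ := exists_U hg
    obtain ⟨n, rfl⟩ := hec c
    exact ⟨n, hc⟩
  have step : ∀ (k : ℕ) (p : {p : (List Bool → List Bool) × (List Bool → List Bool) //
      (IsTree p.1 ∧ TLE (cg p.1) z) ∧ IsTree p.2 ∧ TLE (cg p.2) z}),
      ∃ (g' h' : List Bool → List Bool) (n m : ℕ),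
        ((IsTree g' ∧ TLE (cg g') z) ∧ IsTree h' ∧ TLE (cg h') z) ∧
        (∀ a, ∃ a', G g' a = G p.1.1 a') ∧
        (∀ a, ∃ a', G h' a = G p.1.2 (cat (bt n (w k)) a')) ∧
        (∀ a y, (∀ l, G g' a ∈ U (ec k) l (y l)) → TLE y z ∨ TLE (G g' a) (join y z)) ∧
        (∀ a y, (∀ l, G h' a ∈ U (ec k) l (y l)) → TLE y z ∨ TLE (G h' a) (join y z)) ∧
        (∀ l, z ∈ U (ec n) l (cg g' l)) ∧ ∀ l, z ∈ U (ec m) l (cg h' l) := by
    rintro k ⟨⟨g, h⟩, ⟨hg1, hg2⟩, hh1, hh2⟩
    obtain ⟨g', a1, a2, a3, a4⟩ := min_functional hgood (ec k) hg1 hg2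
    obtain ⟨n, hn⟩ := code g' a2
    obtain ⟨h', b1, b2, b3, b4⟩ := min_functional hgood (ec k)
      (hh1.comp (isTree_append (bt n (w k)))) (hgz.app h (bt n (w k)) hh2)
    obtain ⟨m, hm⟩ := code h' b2
    refine ⟨g', h', n, m, ⟨⟨a1, a2⟩, b1, b2⟩, a3, fun a => ?_, a4, b4, hn, hm⟩
    obtain ⟨a', ha'⟩ := b3 a
    exact ⟨a', ha'.trans (G_append hh1 _ _)⟩
  choose g' h' n m hst h1 h2 h3 h4 h5 h6 using step
  let nxt : ∀ (k : ℕ) (p : {p : (List Bool → List Bool) × (List Bool → List Bool) //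
      (IsTree p.1 ∧ TLE (cg p.1) z) ∧ IsTree p.2 ∧ TLE (cg p.2) z}),
      {p : (List Bool → List Bool) × (List Bool → List Bool) //
      (IsTree p.1 ∧ TLE (cg p.1) z) ∧ IsTree p.2 ∧ TLE (cg p.2) z} := fun k p =>
    ⟨(fun s => g' k p (bt (m k p) false ++ s), h' k p),
      ⟨(hst k p).1.1.comp (isTree_append _), hgz.app _ _ (hst k p).1.2⟩, (hst k p).2⟩
  have hz0 : TLE (cg fun s => zp z s) z := hgz.zpc (fun s => s) z hgz.idt (TLE.refl z)
  let st : ℕ → {p : (List Bool → List Bool) × (List Bool → List Bool) //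
      (IsTree p.1 ∧ TLE (cg p.1) z) ∧ IsTree p.2 ∧ TLE (cg p.2) z} := fun k =>
    Nat.rec ⟨(fun s => zp z s, fun s => zp z s), ⟨isTree_zp z, hz0⟩, isTree_zp z, hz0⟩ nxt k
  have hs1 : ∀ k, (st (k + 1)).1.1 =
      fun s => g' k (st k) (bt (m k (st k)) false ++ s) := fun k => rfl
  have hs2 : ∀ k, (st (k + 1)).1.2 = h' k (st k) := fun k => rfl
  -- the two sequences of branches are nested
  have nest1 : ∀ k, range (G (st (k + 1)).1.1) ⊆ range (G (st k).1.1) := by
    rintro k _ ⟨a, rfl⟩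
    rw [hs1, G_append (hst k (st k)).1.1]
    obtain ⟨a', ha'⟩ := h1 k (st k) (cat (bt (m k (st k)) false) a)
    rw [ha']
    exact mem_range_self _
  have nest2 : ∀ k, range (G (st (k + 1)).1.2) ⊆ range (G (st k).1.2) := by
    rintro k _ ⟨a, rfl⟩
    rw [hs2]
    obtain ⟨a', ha'⟩ := h2 k (st k) a
    rw [ha']
    exact mem_range_self _
  have key : ∀ F : ℕ → List Bool → List Bool,
      (∀ k, range (G (F (k + 1))) ⊆ range (G (F k))) → ∃ t, ∀ k, ∃ a, G (F k) a = t := by
    intro F hF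
    obtain ⟨t, ht⟩ := IsCompact.nonempty_iInter_of_sequence_nonempty_isCompact_isClosed
      (fun k => range (G (F k))) hF (fun k => range_nonempty _)
      (isCompact_range (continuous_G _)) (fun k => (isCompact_range (continuous_G _)).isClosed)
    rw [mem_iInter] at ht
    exact ⟨t, ht⟩
  obtain ⟨t0, ht0⟩ := key (fun k => (st k).1.1) nest1
  obtain ⟨t1, ht1⟩ := key (fun k => (st k).1.2) nest2
  have hzt0 : TLE z t0 := by
    obtain ⟨a, ha⟩ := ht0 0
    change G (zp z) a = t0 at ha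
    rw [← ha, G_zp]
    exact TLE.join_left _ _
  have hzt1 : TLE z t1 := by
    obtain ⟨a, ha⟩ := ht1 0
    change G (zp z) a = t1 at ha
    rw [← ha, G_zp]
    exact TLE.join_left _ _
  have c0 : ∀ k, ∃ a, Cod (m k (st k)) false a ∧ t0 = G (g' k (st k)) a := by
    intro k
    obtain ⟨a, ha⟩ := ht0 (k + 1)
    change G (st (k + 1)).1.1 a = t0 at ha
    rw [hs1, G_append (hst k (st k)).1.1] at ha
    exact ⟨_, cod_cat _ _ _, ha.symm⟩
  have c1 : ∀ k, ∃ a, Cod (n k (st k)) (w k) a ∧ t1 = G (st k).1.2 a := by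
    intro k
    obtain ⟨a, ha⟩ := ht1 (k + 1)
    change G (st (k + 1)).1.2 a = t1 at ha
    rw [hs2] at ha
    obtain ⟨a', ha'⟩ := h2 k (st k) a
    exact ⟨_, cod_cat _ _ _, ha.symm.trans ha'⟩
  let R : Run ec :=
    { z := z, w := w, t0 := t0, t1 := t1, g := fun k => g' k (st k), h := fun k => (st k).1.2
      n := fun k => n k (st k), m := fun k => m k (st k), h0 := fun s => rfl
      tg := fun k => (hst k (st k)).1.1, th := fun k => (st k).2.2.1, c1 := c1
      e1 := fun k => h5 k (st k), c0 := c0, e0 := fun k => h6 k (st k) }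
  refine ⟨t0, t1, ⟨hzt0, fun y hy => ?_⟩, ⟨hzt1, fun y hy => ?_⟩, fun J hJ0 hJ1 => ?_⟩
  · obtain ⟨c, hc⟩ := exists_U hy
    obtain ⟨k, rfl⟩ := hec c
    obtain ⟨a, _, ha⟩ := c0 k
    rw [ha] at hc ⊢
    exact h3 k (st k) a y hc
  · obtain ⟨c, hc⟩ := exists_U hy
    obtain ⟨k, rfl⟩ := hec c
    obtain ⟨a, ha⟩ := ht1 (k + 1)
    change G (st (k + 1)).1.2 a = t1 at ha
    rw [hs2] at ha
    rw [← ha] at hc ⊢
    exact h4 k (st k) a y hc
  · have hzJ : TLE z J := hzt0.trans hJ0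
    exact hZ1 R J hJ0 hJ1 hzJ (hgz.idt.trans hzJ) (((TLE.join_right Z0 Z1).trans hz).trans hzJ)

end Pool.Agent.Helper55AX
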