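import Mathlib
import Pool.Agent.Helper55_AX.Pair

/-!
# The closure of a real under a set valued function, and the Turing invariant set
-/

set_option autoImplicit false

namespace Pool.Agent.Helper55AX

open Pool.Agent.Helper25TD Set

/-- `Cl f x` is the smallest set of reals that contains `x` and is closed under Turing
reducibility, under the join and under passing from `u` to the members of `f u`. -/
inductive Cl (f : (ℕ → Bool) → Set (ℕ → Bool)) (x : ℕ → Bool) : (ℕ → Bool) → Prop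
  | base : Cl f x x
  | down (u v : ℕ → Bool) : Cl f x v → TLE u v → Cl f x u
  | sup (u v : ℕ → Bool) : Cl f x u → Cl f x v → Cl f x (join u v)
  | app (u v : ℕ → Bool) : Cl f x u → v ∈ f u → Cl f x v

/-- The set of all reals `t` that are minimal covers with respect to `f`: some real `y` computable
from `t` does not have `t` in its closure, and no real computable from `t` lies strictly between
`y` and `t` with respect to membership in the closure. -/
def MinCover (f : (ℕ → Bool) → Set (ℕ → Bool)) : Set (ℕ → Bool) :=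
  {t | ∃ y, TLE y t ∧ ¬ Cl f y t ∧ ∀ y', TLE y' t → Cl f y' y → Cl f y y' ∨ Cl f y' t}

theorem Cl.trans {f : (ℕ → Bool) → Set (ℕ → Bool)} {x y z : ℕ → Bool} (h1 : Cl f y x)
    (h2 : Cl f z y) : Cl f z x := by
  induction h1 with
  | base => exact h2
  | down u v _ huv ih => exact Cl.down u v ih huv
  | sup u v _ _ ih1 ih2 => exact Cl.sup u v ih1 ih2
  | app u v _ huv ih => exact Cl.app u v ih huv

theorem turingInvariant_minCover (f : (ℕ → Bool) → Set (ℕ → Bool)) :
    TuringInvariant (MinCover f) := by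
  rintro t t' h1 h2 ⟨y, hy, hy2, hyt⟩
  refine ⟨y, hy.trans h1, fun h => hy2 (Cl.down _ _ h h1), fun y' hy' h3 => ?_⟩
  exact (hyt y' (hy'.trans h2) h3).imp id fun h => Cl.down _ _ h h2

/-- the stages of the closure -/
def stage (f : (ℕ → Bool) → Set (ℕ → Bool)) (x : ℕ → Bool) : ℕ → Set (ℕ → Bool)
  | 0 => {x}
  | n + 1 => (⋃ v ∈ stage f x n, {u | TLE u v}) ∪
      image2 join (stage f x n) (stage f x n) ∪ ⋃ u ∈ stage f x n, f u

theorem stage_succ (f : (ℕ → Bool) → Set (ℕ → Bool)) (x : ℕ → Bool) (n : ℕ) :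
    stage f x n ⊆ stage f x (n + 1) := fun u hu =>
  Or.inl (Or.inl (mem_biUnion hu (TLE.refl u)))

theorem stage_mono (f : (ℕ → Bool) → Set (ℕ → Bool)) (x : ℕ → Bool) : Monotone (stage f x) :=
  monotone_nat_of_le_succ (stage_succ f x)

theorem countable_stage {f : (ℕ → Bool) → Set (ℕ → Bool)} (hf : ∀ x, (f x).Countable)
    (x : ℕ → Bool) (n : ℕ) : (stage f x n).Countable := by
  induction n with
  | zero => exact countable_singleton x
  | succ n ih =>
    exact ((ih.biUnion fun v _ => countable_cone v).union (ih.image2 ih join)).union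
      (ih.biUnion fun u _ => hf u)

theorem countable_cl {f : (ℕ → Bool) → Set (ℕ → Bool)} (hf : ∀ x, (f x).Countable)
    (x : ℕ → Bool) : {y | Cl f x y}.Countable := by
  refine (countable_iUnion fun n => countable_stage hf x n).mono ?_
  intro y hy
  rw [mem_iUnion]
  change Cl f x y at hy
  induction hy with
  | base => exact ⟨0, rfl⟩
  | down u v _ huv ih =>
    obtain ⟨n, hn⟩ := ih
    exact ⟨n + 1, Or.inl (Or.inl (mem_biUnion hn huv))⟩
  | sup u v _ _ ih1 ih2 =>
    obtain ⟨n, hn⟩ := ih1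
    obtain ⟨m, hm⟩ := ih2
    exact ⟨max n m + 1, Or.inl (Or.inr (mem_image2_of_mem
      (stage_mono f x (le_max_left n m) hn) (stage_mono f x (le_max_right n m) hm)))⟩
  | app u v _ huv ih =>
    obtain ⟨n, hn⟩ := ih
    exact ⟨n + 1, Or.inr (mem_biUnion hn huv)⟩

/-- a set valued function for which some closure is everything has an uncountable value -/
theorem exists_uncountable {f : (ℕ → Bool) → Set (ℕ → Bool)} {x : ℕ → Bool}
    (h : ∀ w, Cl f x w) : ∃ u, ¬ (f u).Countable := by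
  by_contra hcon
  push Not at hcon
  refine perfect_not_countable perfect_univ univ_nonempty ?_
  exact (countable_cl hcon x).mono fun w _ => h w

/-- there are members of `MinCover f` above every real -/
theorem exists_mem_minCover {f : (ℕ → Bool) → Set (ℕ → Bool)} (hf : ∀ x, ∃ w, ¬ Cl f x w)
    (b : ℕ → Bool) : ∃ t, TLE b t ∧ t ∈ MinCover f := by
  obtain ⟨Z, hZ⟩ := exists_pair
  obtain ⟨w, hw⟩ := hf (join Z b)
  obtain ⟨t0, t1, h0, h1, h2⟩ := hZ (join Z b) w (TLE.join_left Z b)
  obtain ⟨t, ht, hzt, ht3⟩ : ∃ t, ¬ Cl f (join Z b) t ∧ TLE (join Z b) t ∧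
      ∀ y, TLE y t → TLE y (join Z b) ∨ TLE t (join y (join Z b)) := by
    by_cases h3 : Cl f (join Z b) t0
    · by_cases h4 : Cl f (join Z b) t1
      · exact absurd (Cl.down _ _ (Cl.sup _ _ h3 h4)
          (h2 _ (TLE.join_left _ _) (TLE.join_right _ _))) hw
      · exact ⟨t1, h4, h1⟩
    · exact ⟨t0, h3, h0⟩
  refine ⟨t, (TLE.join_right Z b).trans hzt, join Z b, hzt, ht, fun y' hy' h1 => ?_⟩
  rcases ht3 y' hy' with h2 | h2
  · exact Or.inl (Cl.down _ _ Cl.base h2)
  · exact Or.inr (Cl.down _ _ (Cl.sup _ _ Cl.base h1) h2)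

/-- there are reals outside `MinCover f` above every real -/
theorem exists_not_mem_minCover {f : (ℕ → Bool) → Set (ℕ → Bool)} (hf : ∀ x, ∃ w, ¬ Cl f x w)
    (hd : ∀ d, ∃ e, ∀ y, ¬ Cl f e y → Cl f y d) (b : ℕ → Bool) :
    ∃ t, TLE b t ∧ t ∉ MinCover f := by
  obtain ⟨Z, hZ⟩ := exists_min
  choose w hw using hf
  choose e he using hd
  let z : ℕ → (ℕ → Bool) := fun n => Nat.rec (join Z b) (fun _ u => join u (join (w u) (e u))) n
  have hz : ∀ n, z (n + 1) = join (z n) (join (w (z n)) (e (z n))) := fun n => rfl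
  have hz1 : ∀ n, TLE (z n) (z (n + 1)) := fun n => by
    rw [hz]
    exact TLE.join_left _ _
  have hz2 : ∀ n, TLE (w (z n)) (z (n + 1)) := fun n => by
    rw [hz]
    exact (TLE.join_left _ _).trans (TLE.join_right _ _)
  have hz3 : ∀ n, TLE (e (z n)) (z (n + 1)) := fun n => by
    rw [hz]
    exact (TLE.join_right _ _).trans (TLE.join_right _ _)
  obtain ⟨t, _, ht2, ht3⟩ := hZ ∅ z countable_empty (TLE.join_left Z b) hz1
  refine ⟨t, (TLE.join_right Z b).trans (ht2 0), ?_⟩
  rintro ⟨y, hy, hy2, hyt⟩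
  have h1 : ∀ n, ¬ Cl f (z n) t := fun n h =>
    hw (z n) (Cl.down _ _ h ((hz2 n).trans (ht2 (n + 1))))
  rcases ht3 y hy with ⟨n, h3⟩ | ⟨n, h3⟩
  · have h4 : Cl f (z n) y := Cl.down _ _ Cl.base h3
    rcases hyt (z (n + 1)) (ht2 (n + 1)) (Cl.down _ _ Cl.base (h3.trans (hz1 n))) with h5 | h5
    · exact hw (z n) (Cl.trans (Cl.down _ _ h5 (hz2 n)) h4)
    · exact h1 (n + 1) h5
  · have h4 : ¬ Cl f y (z n) := fun h => hy2 (Cl.down _ _ (Cl.sup _ _ Cl.base h) h3)
    have h5 : Cl f (e (z n)) y := by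
      by_contra hcon
      exact h4 (he (z n) y hcon)
    have h6 : Cl f (z (n + 1)) y := Cl.trans h5 (Cl.down _ _ Cl.base (hz3 n))
    rcases hyt (z (n + 1)) (ht2 (n + 1)) h6 with h7 | h7
    · exact h4 (Cl.down _ _ h7 (hz1 n))
    · exact h1 (n + 1) h7

/-! ### determinacy of Turing invariant sets -/

/-- the play in which one player follows the strategy `s` and the other one plays `t` has the
Turing degree of `t`, if `t` is above a real that depends on the strategy -/
theorem exists_play_equiv {r : ℕ} (hr : r < 2) (s : List Bool → Bool) :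
    ∃ b : ℕ → Bool, ∀ t, TLE b t → TLE (play r s t) t ∧ TLE t (play r s t) := by
  obtain ⟨z1, z2, hz⟩ := exists_table_continuous (continuous_play r s)
  refine ⟨join z1 z2, fun t ht => ⟨hz t t (TLE.refl t) ((TLE.join_left z1 z2).trans ht)
    ((TLE.join_right z1 z2).trans ht), ?_⟩⟩
  have h1 : Primrec fun l : ℕ => 2 * l + (1 - r) :=
    Primrec.nat_add.comp (Primrec.nat_mul.comp (Primrec.const 2) Primrec.id) (Primrec.const _)
  have h2 := TLE.sub (x := play r s t) h1
  have h3 : (fun n => play r s t (2 * n + (1 - r))) = t := by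
    funext l
    rw [play_ne r s t (by omega)]
    have : (2 * l + (1 - r)) / 2 = l := by omega
    rw [this]
  rwa [h3] at h2

/-- Martin's cone lemma -/
theorem cone {A : Set (ℕ → Bool)} (hA : TuringInvariant A) (h : WinsI A ∨ WinsII A) :
    ∃ b : ℕ → Bool, (∀ t, TLE b t → t ∈ A) ∨ ∀ t, TLE b t → t ∉ A := by
  rcases h with ⟨s, hs⟩ | ⟨s, hs⟩
  · obtain ⟨b, hb⟩ := exists_play_equiv (r := 0) (by norm_num) s
    refine ⟨b, Or.inl fun t ht => ?_⟩
    obtain ⟨h1, h2⟩ := hb t ht
    exact hA _ _ h1 h2 (hs _ fun n => play_eq 0 s t (by omega))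
  · obtain ⟨b, hb⟩ := exists_play_equiv (r := 1) (by norm_num) s
    refine ⟨b, Or.inr fun t ht htA => ?_⟩
    obtain ⟨h1, h2⟩ := hb t ht
    exact hs _ (fun n => play_eq 1 s t (by omega)) (hA _ _ h2 h1 htA)

/-- The main theorem. -/
theorem main (f : (ℕ → Bool) → Set (ℕ → Bool)) (h : WinsI (MinCover f) ∨ WinsII (MinCover f)) :
    ((∃ u, ¬ (f u).Countable) ∧ ∃ x, ∀ w, Cl f x w) ∨ ∃ d, ∀ e, ∃ y, ¬ Cl f e y ∧ ¬ Cl f y d := by
  by_contra hcon
  push Not at hcon
  obtain ⟨hf, hd⟩ := hcon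
  have hf' : ∀ x, ∃ w, ¬ Cl f x w := by
    intro x
    by_contra hc
    push Not at hc
    obtain ⟨w, hw⟩ := hf (exists_uncountable hc) x
    exact hw (hc w)
  obtain ⟨b, hb | hb⟩ := cone (turingInvariant_minCover f) h
  · obtain ⟨t, h1, h2⟩ := exists_not_mem_minCover hf' hd b
    exact h2 (hb t h1)
  · obtain ⟨t, h1, h2⟩ := exists_mem_minCover hf' b
    exact hb t h1 h2

end Pool.Agent.Helper55AX
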