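import Mathlib
import Pool.Agent.Helper55_AX.Rank

/-!
# Turing determinacy implies Freiling's axiom of symmetry, and more

For every map `f` from reals to sets of reals, let `Cl f x` be the smallest set of reals that
contains `x` and is closed under Turing reducibility, joins and the sets `f u`.  The explicit
Turing invariant set `MinCover f` has the following property.  If the game with payoff set
`MinCover f` is determined, then the sets `Cl f x` are not linearly ordered by inclusion, unless
one of them is the set of all reals (which cannot happen if all the sets `f u` are countable).
In fact there is then one real `d` such that the set of reals `y` with `d ∉ Cl f y` is not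
contained in any of the sets `Cl f e`.

For countable sets `f u` this gives two different reals `x`, `y` with `x ∉ f y` and `y ∉ f x`,
which is Freiling's axiom of symmetry.
-/

set_option autoImplicit false

namespace Pool.Agent.Helper55AX.FreilingSymmetryResult

open Pool.Agent.Helper25TD Pool.Agent.Helper55AX

/-- `MinCover f` is Turing invariant, and if it is determined, then either some value of `f` is
uncountable and some real `x` has `Cl f x = 2 ^ ω`, or there is a real `d` such that for every
real `e` there is a real `y` with `y ∉ Cl f e` and `d ∉ Cl f y`. -/
theorem result (f : (ℕ → Bool) → Set (ℕ → Bool)) :
    TuringInvariant (MinCover f) ∧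
    (WinsI (MinCover f) ∨ WinsII (MinCover f) →
      ((∃ u, ¬ (f u).Countable) ∧ ∃ x, ∀ w, Cl f x w) ∨
      ∃ d, ∀ e, ∃ y, ¬ Cl f e y ∧ ¬ Cl f y d) :=
  ⟨turingInvariant_minCover f, main f⟩

end Pool.Agent.Helper55AX.FreilingSymmetryResult
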